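import Pool.Agent.H64.GG.TA

set_option autoImplicit false

/-!
# MP_c65535_nt, board rgd: absolute values of rational numbers at finite places
-/

namespace Pool.Agent.H67.GG

open NumberField Height Finset Polynomial Pool.Agent.H24.RD Pool.Agent.H23.RDD Pool.Agent.H29.RQ
  Pool.Agent.H29.SX Pool.Agent.H29.LG Pool.Agent.H64.GG

theorem abv_nat {M : Type} [Field M] [NumberField M] (w : FinitePlace M) (n : ℕ) :
    w.1 (n : M) ≤ 1 := by
  induction n with
  | zero =>
    rw [Nat.cast_zero, map_zero]
    exact zero_le_one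
  | succ n ih =>
    rw [Nat.cast_succ]
    have h : w.1 ((n : M) + 1) ≤ max (w.1 (n : M)) (w.1 1) := FinitePlace.add_le w _ _
    exact h.trans (max_le ih (by rw [map_one]))

theorem abv_int {M : Type} [Field M] [NumberField M] (w : FinitePlace M) (n : ℤ) :
    w.1 (n : M) ≤ 1 := by
  rcases Int.natAbs_eq n with h | h
  · rw [h, Int.cast_natCast]
    exact abv_nat w _
  · rw [h, Int.cast_neg, Int.cast_natCast, AbsoluteValue.map_neg]
    exact abv_nat w _

theorem abv_unit {M : Type} [Field M] [NumberField M] (w : FinitePlace M) {p n : ℕ} (hp : p.Prime)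
    (hn : ¬ p ∣ n) (hw : w.1 (p : M) < 1) : w.1 (n : M) = 1 := by
  refine le_antisymm (abv_nat w n) ?_
  by_contra hlt
  rw [not_le] at hlt
  obtain ⟨a, b, hab⟩ : IsCoprime (p : ℤ) (n : ℤ) :=
    Nat.isCoprime_iff_coprime.2 ((Nat.Prime.coprime_iff_not_dvd hp).2 hn)
  have h4 : (1 : M) = (a : M) * (p : M) + (b : M) * (n : M) := by
    have h := congrArg (fun t : ℤ => (t : M)) hab
    push_cast at h
    exact h.symm
  have h5 : w.1 ((a : M) * (p : M) + (b : M) * (n : M)) ≤
      max (w.1 ((a : M) * (p : M))) (w.1 ((b : M) * (n : M))) := FinitePlace.add_le w _ _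
  have h6 : w.1 ((a : M) * (p : M)) < 1 := by
    rw [map_mul]
    exact (mul_le_of_le_one_left (w.1.nonneg _) (abv_int w a)).trans_lt hw
  have h7 : w.1 ((b : M) * (n : M)) < 1 := by
    rw [map_mul]
    exact (mul_le_of_le_one_left (w.1.nonneg _) (abv_int w b)).trans_lt hlt
  rw [← h4, map_one] at h5
  exact absurd h5 (not_le.2 (max_lt h6 h7))

/-- the rational numbers of valuation zero are units at the places above `p` -/
theorem abv_rat {M : Type} [Field M] [NumberField M] (w : FinitePlace M) {p : ℕ} (hp : p.Prime)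
    (hw : w.1 (p : M) < 1) (a : ℚ) (ha : a ≠ 0) (h0 : padicValRat p a = 0) :
    w.1 (algebraMap ℚ M a) = 1 := by
  have : Fact p.Prime := ⟨hp⟩
  have h1 : padicValRat p a = padicValInt p a.num - padicValNat p a.den := rfl
  have h1' : padicValInt p a.num = padicValNat p a.num.natAbs := rfl
  have hnum : ¬ p ∣ a.num.natAbs := by
    intro hd
    have hn0 : a.num.natAbs ≠ 0 := by
      rw [Int.natAbs_ne_zero]
      exact Rat.num_ne_zero.2 ha
    have h2 : 1 ≤ padicValNat p a.num.natAbs := one_le_padicValNat_of_dvd hn0 hd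
    have h3 : 1 ≤ padicValNat p a.den := by omega
    have h4 : p ∣ a.den := dvd_of_one_le_padicValNat h3
    exact Nat.not_coprime_of_dvd_of_dvd hp.one_lt hd h4 a.reduced
  have hden : ¬ p ∣ a.den := by
    intro hd
    have h2 : 1 ≤ padicValNat p a.den := one_le_padicValNat_of_dvd a.den_nz hd
    have h3 : 1 ≤ padicValNat p a.num.natAbs := by omega
    exact hnum (dvd_of_one_le_padicValNat h3)
  have h5 : algebraMap ℚ M a = (a.num : M) / (a.den : M) := by
    rw [eq_ratCast]
    exact Rat.cast_def a
  rw [h5, map_div₀, abv_unit w hp hden hw, div_one]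
  rcases Int.natAbs_eq a.num with h | h
  · rw [h, Int.cast_natCast]
    exact abv_unit w hp hnum hw
  · rw [h, Int.cast_neg, Int.cast_natCast, AbsoluteValue.map_neg]
    exact abv_unit w hp hnum hw

end Pool.Agent.H67.GG
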