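import Pool.Agent.H64.GG.TC
import Pool.Agent.H67.GG.Loc

set_option autoImplicit false

/-!
# MP_c65535_nt, board rgd, row MAX: the elements of the field of radicals which are integral at `w`
-/

namespace Pool.Agent.H67.GG

open NumberField Height Finset Polynomial Pool.Agent.H24.RD Pool.Agent.H23.RDD Pool.Agent.H29.RQ
  Pool.Agent.H29.SX Pool.Agent.H29.LG Pool.Agent.H64.GG

/-- the monomials of degree less than `N i` span the field generated by the radicals -/
private theorem span_mono {K M : Type} [Field K] [Field M] [Algebra K M] {r : ℕ}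
    {N : Fin r → ℕ} {θ : Fin r → M} (hN : ∀ i, 0 < N i) (c : Fin r → K)
    (hθ : ∀ i, θ i ^ N i = algebraMap K M (c i)) (z : M)
    (hz : z ∈ IntermediateField.adjoin K (Set.range θ)) :
    z ∈ Submodule.span K
      (Set.range (fun j : (i : Fin r) → Fin (N i) => ∏ i, θ i ^ (j i : ℕ))) := by
  classical
  have hint : ∀ x ∈ Set.range θ, IsAlgebraic K x := by
    rintro x ⟨i, rfl⟩
    refine IsIntegral.isAlgebraic ⟨Polynomial.X ^ N i - Polynomial.C (c i),
      Polynomial.monic_X_pow_sub_C _ (hN i).ne', ?_⟩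
    rw [eval₂_sub, eval₂_pow, eval₂_X, eval₂_C, hθ, sub_self]
  have h1 : z ∈ Algebra.adjoin K (Set.range θ) := by
    rw [← IntermediateField.adjoin_toSubalgebra_of_isAlgebraic hint]
    exact hz
  rw [Algebra.adjoin_range_eq_range_aeval] at h1
  obtain ⟨P, rfl⟩ := h1
  have h2 : MvPolynomial.aeval θ P =
      ∑ n ∈ P.support, algebraMap K M (P.coeff n) * ∏ i, θ i ^ n i := by
    rw [MvPolynomial.aeval_def, MvPolynomial.eval₂_eq']
  change MvPolynomial.aeval θ P ∈ _
  rw [h2]
  refine Submodule.sum_mem _ fun n _ => ?_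
  obtain ⟨j0, hj0⟩ : ∃ j0 : (i : Fin r) → Fin (N i), ∀ i, ((j0 i : ℕ)) = n i % N i :=
    ⟨fun i => ⟨n i % N i, Nat.mod_lt _ (hN i)⟩, fun i => rfl⟩
  have h3 : algebraMap K M (P.coeff n) * ∏ i, θ i ^ n i =
      (P.coeff n * ∏ i, c i ^ (n i / N i)) • ∏ i, θ i ^ (j0 i : ℕ) := by
    rw [Algebra.smul_def, map_mul, map_prod, mul_assoc, ← Finset.prod_mul_distrib]
    refine congrArg _ (Finset.prod_congr rfl fun i _ => ?_)
    rw [map_pow, ← hθ, ← pow_mul, ← pow_add, hj0, Nat.div_add_mod]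
  rw [h3]
  exact Submodule.smul_mem _ _ (Submodule.subset_span ⟨j0, rfl⟩)

/-- the polynomial with given coordinates -/
private theorem poly_ex {K M : Type} [Field K] [NumberField K] [Field M] [NumberField M]
    [Algebra K M] {r : ℕ} {N : Fin r → ℕ} (θ : Fin r → M) (w : FinitePlace M)
    (c : ((i : Fin r) → Fin (N i)) → K) (hc : ∀ j, w.1 (algebraMap K M (c j)) ≤ 1) :
    ∃ s : MvPolynomial (Fin r) K, Itg w.1 s ∧
      MvPolynomial.aeval θ s = ∑ j, algebraMap K M (c j) * ∏ i, θ i ^ (j i : ℕ) := by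
  classical
  have hna : ∀ x y : M, w.1 x ≤ 1 → w.1 y ≤ 1 → w.1 (x + y) ≤ 1 := by
    intro x y hx hy
    have h : w.1 (x + y) ≤ max (w.1 x) (w.1 y) := FinitePlace.add_le w x y
    exact h.trans (max_le hx hy)
  refine ⟨∑ j, MvPolynomial.monomial (Finsupp.equivFunOnFinite.symm fun i => (j i : ℕ)) (c j),
    ?_, ?_⟩
  · intro n
    rw [MvPolynomial.coeff_sum, map_sum]
    have hsum : ∀ S : Finset ((i : Fin r) → Fin (N i)), w.1 (∑ j ∈ S, algebraMap K M
        ((MvPolynomial.monomial (Finsupp.equivFunOnFinite.symm fun i => (j i : ℕ)) (c j)).coeff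
          n)) ≤ 1 := by
      intro S
      induction S using Finset.induction_on with
      | empty =>
        rw [Finset.sum_empty, map_zero]
        exact zero_le_one
      | insert j S hj ih =>
        rw [Finset.sum_insert hj]
        refine hna _ _ ?_ ih
        rw [MvPolynomial.coeff_monomial]
        split_ifs
        · exact hc j
        · rw [map_zero, map_zero]
          exact zero_le_one
    exact hsum univ
  · rw [map_sum]
    refine Finset.sum_congr rfl fun j _ => ?_
    rw [MvPolynomial.aeval_monomial, Finsupp.prod_fintype _ _ (fun i => pow_zero _)]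
    rfl

theorem pf_MAX (hTRG : T_TRG) (hMXB : T_MXB) (hAPX : T_APX) (hRS : Pool.Agent.H23.RDD.T_RS) :
    T_MAX := by
  classical
  intro K M _ _ _ _ _ r a N θ p hL w hw b hb hwb
  have hp := hL.prime
  have hNpos := hL.good.pos
  obtain ⟨c, hc⟩ : ∃ c : Fin r → K, ∀ l, c l = algebraMap ℚ K (a l) := ⟨_, fun _ => rfl⟩
  have hcM : ∀ l, algebraMap ℚ M (a l) = algebraMap K M (c l) := by
    intro l
    rw [hc, eq_ratCast, eq_ratCast, map_ratCast]
  -- the zero element
  by_cases hb0 : b = 0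
  · refine ⟨0, 1, ?_, ?_, ?_, ?_⟩
    · intro n
      rw [MvPolynomial.coeff_zero, map_zero, map_zero]
      exact zero_le_one
    · intro n
      rw [MvPolynomial.coeff_one]
      split_ifs
      · rw [map_one, map_one]
      · rw [map_zero, map_zero]
        exact zero_le_one
    · rw [map_one, map_one]
    · rw [hb0, map_zero, zero_mul]
  -- the field of radicals
  obtain ⟨M1, hM1⟩ : ∃ M1 : IntermediateField K M, M1 = IntermediateField.adjoin K (Set.range θ) :=
    ⟨_, rfl⟩
  have hθM : ∀ i, θ i ∈ M1 := by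
    intro i
    rw [hM1]
    exact IntermediateField.subset_adjoin K _ ⟨i, rfl⟩
  obtain ⟨θ', hθ'⟩ : ∃ θ' : Fin r → M1, ∀ i, ((θ' i : M1) : M) = θ i :=
    ⟨fun i => ⟨θ i, hθM i⟩, fun _ => rfl⟩
  have hfinM : FiniteDimensional K M := Module.Finite.of_restrictScalars_finite ℚ K M
  have hfinM1 : FiniteDimensional K M1 := inferInstance
  have hfinQ : FiniteDimensional ℚ M1 := FiniteDimensional.trans ℚ K M1
  have hNF : NumberField M1 := { to_charZero := inferInstance, to_finiteDimensional := hfinQ }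
  have hcoe : ∀ (g : ((i : Fin r) → Fin (N i)) → K),
      ((∑ j, algebraMap K M1 (g j) * ∏ i, θ' i ^ (j i : ℕ) : M1) : M) =
      ∑ j, algebraMap K M (g j) * ∏ i, θ i ^ (j i : ℕ) := by
    intro g
    rw [← IntermediateField.algebraMap_apply, map_sum]
    refine Finset.sum_congr rfl fun j _ => ?_
    rw [map_mul, map_prod]
    refine congrArg₂ _ rfl (Finset.prod_congr rfl fun i _ => ?_)
    rw [map_pow, IntermediateField.algebraMap_apply, hθ']
  have hpow' : ∀ i, θ' i ^ N i = algebraMap ℚ M1 (a i) := by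
    intro i
    apply Subtype.ext
    rw [IntermediateField.coe_pow, hθ', hL.pow i, eq_ratCast, eq_ratCast]
    rfl
  have hind' : Ind K θ' N := by
    refine LinearIndependent.of_comp (M1.val.toLinearMap) ?_
    have h : (M1.val.toLinearMap ∘ fun j : (i : Fin r) → Fin (N i) => ∏ i, θ' i ^ (j i : ℕ)) =
        fun j : (i : Fin r) → Fin (N i) => ∏ i, θ i ^ (j i : ℕ) := by
      funext j
      change M1.val (∏ i, θ' i ^ (j i : ℕ)) = _
      rw [map_prod]
      refine Finset.prod_congr rfl fun i _ => ?_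
      rw [map_pow]
      exact congrArg (fun t : M => t ^ (j i : ℕ)) (hθ' i)
    rw [h]
    exact hL.ind
  have hLD : LocD K M1 a N θ' p := ⟨hL.good, hpow', hind', hp, hL.unit, hL.ram⟩
  have hrank : Module.finrank K M1 = ∏ i, N i := by
    have h1 : Submodule.span K
      (Set.range (fun j : (i : Fin r) → Fin (N i) => ∏ i, θ i ^ (j i : ℕ))) =
      Subalgebra.toSubmodule M1.toSubalgebra := by
      apply le_antisymm
      · rw [Submodule.span_le]
        rintro x ⟨j, rfl⟩
        have h : (∏ i, θ i ^ (j i : ℕ)) ∈ M1 := prod_mem fun i _ => pow_mem (hθM i) _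
        exact h
      · intro z hz
        refine span_mono hNpos c (fun i => ?_) z ?_
        · rw [hL.pow, hcM]
        · rw [← hM1]
          exact hz
    have h2 := finrank_span_eq_card (hL.ind)
    rw [h1] at h2
    rw [Fintype.card_pi] at h2
    have h3 : Module.finrank K M1 = Module.finrank K (Subalgebra.toSubmodule M1.toSubalgebra) := rfl
    rw [h3, h2]
    exact Finset.prod_congr rfl fun i _ => Fintype.card_fin _
  -- the places
  obtain ⟨v1, k1, hk1, hv1⟩ := hRS M1 M w
  have hv1p : v1.1 (p : M1) < 1 := by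
    have h := hv1 (p : M1)
    rw [map_natCast] at h
    by_contra h2
    rw [not_lt] at h2
    have h3 := Real.one_le_rpow h2 hk1.le
    rw [← h] at h3
    exact absurd hw (not_lt.2 h3)
  obtain ⟨v, k0, hk0, hv⟩ := hRS K M w
  have hvp : v.1 (p : K) < 1 := by
    have h := hv (p : K)
    rw [map_natCast] at h
    by_contra h2
    rw [not_lt] at h2
    have h3 := Real.one_le_rpow h2 hk0.le
    rw [← h] at h3
    exact absurd hw (not_lt.2 h3)
  have hPI : ∀ x : K, PInt K p x → w.1 (algebraMap K M x) ≤ 1 := by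
    intro x hx
    rw [hv]
    exact Real.rpow_le_one (v.1.nonneg _) (hx v hvp) hk0.le
  obtain ⟨b1, hb1⟩ : ∃ b1 : M1, (b1 : M) = b := ⟨⟨b, by rw [hM1]; exact hb⟩, rfl⟩
  have hb10 : b1 ≠ 0 := by
    intro h
    apply hb0
    rw [← hb1, h]
    rfl
  have hvb1 : v1.1 b1 ≤ 1 := by
    have h := hv1 b1
    rw [IntermediateField.algebraMap_apply, hb1] at h
    by_contra h2
    rw [not_le] at h2
    have h3 := Real.one_lt_rpow h2 hk1
    rw [← h] at h3
    exact absurd hwb (not_le.2 h3)
  obtain ⟨s0, hs0, hs01, hs02⟩ := hAPX M1 p hp v1 hv1p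
  -- the exponent
  obtain ⟨e, he⟩ : ∃ e : ℕ, PInt M1 p (s0 ^ e * b1) := by
    have hfin : {v' : FinitePlace M1 | v'.1 b1 ≠ 1}.Finite := FinitePlace.hasFiniteMulSupport hb10
    have h1 : ∀ v' : FinitePlace M1, ∃ e : ℕ, v'.1 (p : M1) < 1 →
        ∀ e', e ≤ e' → v'.1 (s0 ^ e' * b1) ≤ 1 := by
      intro v'
      by_cases h2 : v'.1 (p : M1) < 1
      · by_cases h3 : v'.1 b1 ≤ 1
        · refine ⟨0, fun _ e' _ => ?_⟩
          rw [map_mul, map_pow]
          exact mul_le_one₀ (pow_le_one₀ (v'.1.nonneg _) (hs0 v' h2)) (v'.1.nonneg _) h3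
        · rw [not_le] at h3
          have h4 : v' ≠ v1 := by
            rintro rfl
            exact absurd hvb1 (not_le.2 h3)
          have h5 := hs02 v' h2 h4
          have hb' : 0 < v'.1 b1 := zero_lt_one.trans h3
          obtain ⟨e, he⟩ := exists_pow_lt_of_lt_one (inv_pos.2 hb') h5
          refine ⟨e, fun _ e' hee => ?_⟩
          rw [map_mul, map_pow]
          have h6 : v'.1 s0 ^ e' ≤ v'.1 s0 ^ e :=
            pow_le_pow_of_le_one (v'.1.nonneg _) h5.le hee
          calc v'.1 s0 ^ e' * v'.1 b1 ≤ (v'.1 b1)⁻¹ * v'.1 b1 :=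
                mul_le_mul_of_nonneg_right (h6.trans he.le) hb'.le
            _ = 1 := inv_mul_cancel₀ hb'.ne'
      · exact ⟨0, fun h => absurd h h2⟩
    choose E hE using h1
    refine ⟨hfin.toFinset.sup E, fun v' hv' => ?_⟩
    by_cases h2 : v'.1 b1 = 1
    · rw [map_mul, map_pow, h2, mul_one]
      exact pow_le_one₀ (v'.1.nonneg _) (hs0 v' hv')
    · exact hE v' hv' _ (Finset.le_sup (f := E) (hfin.mem_toFinset.2 h2))
  have hse : PInt M1 p (s0 ^ e) := by
    intro v' hv'
    rw [map_pow]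
    exact pow_le_one₀ (v'.1.nonneg _) (hs0 v' hv')
  -- coordinates
  have hco : ∀ z : M1, PInt M1 p z → ∃ g : ((i : Fin r) → Fin (N i)) → K,
      (∀ j, PInt K p (g j)) ∧ z = ∑ j, algebraMap K M1 (g j) * ∏ i, θ' i ^ (j i : ℕ) := by
    intro z hz
    by_cases hpN : p ∣ ∏ i, N i
    · exact hMXB K M1 r a N θ' p hLD hpN hrank z hz
    · obtain ⟨g, hg, hgz⟩ := hTRG K M1 r a N θ' p hp hL.good.nz hNpos hL.unit hpow' hind' hrank z hz
      refine ⟨g, fun j v' hv' => ?_, hgz⟩
      have h1 := hg j v' hv'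
      rwa [map_mul, abv_unit v' hp hpN hv', one_mul] at h1
  obtain ⟨g1, hg1, hgs⟩ := hco _ hse
  obtain ⟨g2, hg2, hgu⟩ := hco _ he
  obtain ⟨s, hs, hse'⟩ := poly_ex θ w g1 (fun j => hPI _ (hg1 j))
  obtain ⟨u, hu, hue'⟩ := poly_ex θ w g2 (fun j => hPI _ (hg2 j))
  rw [← hcoe, ← hgs] at hse'
  rw [← hcoe, ← hgu] at hue'
  refine ⟨u, s, hu, hs, ?_, ?_⟩
  · rw [hse', ← IntermediateField.algebraMap_apply, hv1, map_pow, hs01, one_pow, Real.one_rpow]
  · rw [hse', hue', ← hb1, IntermediateField.coe_mul, mul_comm]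

end Pool.Agent.H67.GG
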