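import Pool.Agent.H64.GG.TC
import Pool.Agent.H67.GG.Loc
import Pool.Agent.H18.LG.EXTP

set_option autoImplicit false

/-!
# MP_c65535_nt, board rgd, row UNV: the part of the field of radicals which is unramified at `p`
-/

namespace Pool.Agent.H67.GG

open NumberField Height Finset Polynomial Pool.Agent.H24.RD Pool.Agent.H23.RDD Pool.Agent.H29.RQ
  Pool.Agent.H29.SX Pool.Agent.H29.LG Pool.Agent.H64.GG

/-- radicals whose degree divides the level are in the level field -/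
private theorem mem_lv {F Ω : Type} [Field F] [Field Ω] [Algebra F Ω] [IsAlgClosed Ω] {r : ℕ}
    (γ : Fin r → F) (hγ : ∀ i, γ i ≠ 0) {n e : ℕ} (hn : 0 < n) (hen : e ∣ n) (z : Ω) (l : Fin r)
    (hz : z ^ e = algebraMap F Ω (γ l)) : z ∈ Lv F Ω γ n n := by
  obtain ⟨t, ht⟩ := IsAlgClosed.exists_pow_nat_eq (algebraMap F Ω (γ l)) hn
  have hγ0 : algebraMap F Ω (γ l) ≠ 0 := by
    rw [Ne, FaithfulSMul.algebraMap_eq_zero_iff]
    exact hγ l
  have ht0 : t ≠ 0 := by
    intro h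
    rw [h, zero_pow hn.ne'] at ht
    exact hγ0 ht.symm
  obtain ⟨m, hm⟩ := hen
  have h1 : (z / t ^ m) ^ n = 1 := by
    have h2 : z ^ n = algebraMap F Ω (γ l) ^ m := by
      rw [hm, pow_mul, hz]
    have h3 : (t ^ m) ^ n = algebraMap F Ω (γ l) ^ m := by
      rw [← pow_mul, mul_comm m n, pow_mul, ht]
    rw [div_pow, h2, h3, div_self (pow_ne_zero _ hγ0)]
  have h4 : z = z / t ^ m * t ^ m := by
    rw [div_mul_cancel₀ _ (pow_ne_zero _ ht0)]
  rw [h4]
  refine mul_mem ?_ (pow_mem ?_ _)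
  · exact IntermediateField.subset_adjoin F _ (Or.inl h1)
  · exact IntermediateField.subset_adjoin F _ (Or.inr ⟨l, ht⟩)

private theorem fin_lv {F Ω : Type} [Field F] [Field Ω] [Algebra F Ω] [Algebra.IsAlgebraic F Ω]
    {r : ℕ} (γ : Fin r → F) {n : ℕ} (hn : 0 < n) : FiniteDimensional F (Lv F Ω γ n n) := by
  classical
  have h1 : ∀ c : Ω, {z : Ω | z ^ n = c}.Finite := by
    intro c
    have h2 : (X ^ n - C c : Polynomial Ω) ≠ 0 := X_pow_sub_C_ne_zero hn c
    refine ((X ^ n - C c : Polynomial Ω).roots.toFinset.finite_toSet).subset ?_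
    intro z hz
    have hz' : z ^ n = c := hz
    rw [Finset.mem_coe, Multiset.mem_toFinset, mem_roots h2, IsRoot.def, eval_sub, eval_pow,
      eval_X, eval_C, hz', sub_self]
  have h3 : {z : Ω | z ^ n = 1 ∨ ∃ i, z ^ n = algebraMap F Ω (γ i)}.Finite := by
    refine ((h1 1).union (Set.finite_iUnion fun i => h1 (algebraMap F Ω (γ i)))).subset ?_
    rintro z (hz | ⟨i, hz⟩)
    · exact Or.inl hz
    · exact Or.inr (Set.mem_iUnion.2 ⟨i, hz⟩)
  have : Finite {z : Ω | z ^ n = 1 ∨ ∃ i, z ^ n = algebraMap F Ω (γ i)} := h3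
  exact IntermediateField.finiteDimensional_adjoin
    (fun x _ => (Algebra.IsAlgebraic.isAlgebraic x).isIntegral)

theorem pf_UNV (hUNK : Pool.Agent.H29.LG.T_UNK) (hRS : Pool.Agent.H23.RDD.T_RS) : T_UNV := by
  classical
  intro K M _ _ _ _ _ r a N θ p hL i k hk hpk hpk' w hw x hx hx0
  obtain ⟨m', hm'⟩ := hpk
  have hp := hL.prime
  have hNpos := hL.good.pos
  have hpm' : ¬ p ∣ m' := by
    rintro ⟨c, rfl⟩
    exact hpk' ⟨c, by rw [hm', pow_succ, mul_assoc]⟩
  have hm'0 : 0 < m' := by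
    rcases Nat.eq_zero_or_pos m' with h | h
    · exact absurd (h ▸ dvd_zero p) hpm'
    · exact h
  have hpNi : p ∣ N i := by
    rw [hm']
    exact Dvd.dvd.mul_right (dvd_pow_self p (by omega)) _
  have hpNl : ∀ l, l ≠ i → ¬ p ∣ N l := by
    intro l hl h
    exact Nat.not_coprime_of_dvd_of_dvd hp.one_lt h hpNi (hL.good.cop l i hl)
  obtain ⟨n1, hn1⟩ : ∃ n1, n1 = m' * ∏ l ∈ univ.erase i, N l := ⟨_, rfl⟩
  have hn1pos : 0 < n1 := by
    rw [hn1]
    exact Nat.mul_pos hm'0 (Finset.prod_pos fun l _ => hNpos l)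
  have hpn1 : ¬ p ∣ n1 := by
    rw [hn1, hp.dvd_mul, hp.prime.dvd_finsetProd_iff]
    rintro (h | ⟨l, hl, h⟩)
    · exact hpm' h
    · exact hpNl l (Finset.ne_of_mem_erase hl) h
  have hmn : m' ∣ n1 := by
    rw [hn1]
    exact Dvd.intro _ rfl
  have hNn : ∀ l, l ≠ i → N l ∣ n1 := by
    intro l hl
    rw [hn1]
    exact Dvd.dvd.mul_left (Finset.dvd_prod_of_mem N (Finset.mem_erase.2 ⟨hl, mem_univ l⟩)) _
  -- the algebraic closure
  have halgM : Algebra.IsAlgebraic K M := Algebra.IsAlgebraic.tower_top (K := ℚ) K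
  have halg : Algebra.IsAlgebraic K (AlgebraicClosure M) := Algebra.IsAlgebraic.trans K M _
  have hcz : CharZero (AlgebraicClosure M) := inferInstance
  obtain ⟨γ, hγ⟩ : ∃ γ : Fin r → K, ∀ l, γ l = algebraMap ℚ K (a l) := ⟨_, fun _ => rfl⟩
  have hγ0 : ∀ l, γ l ≠ 0 := by
    intro l
    rw [hγ, Ne, FaithfulSMul.algebraMap_eq_zero_iff]
    exact hL.good.nz l
  have hγM : ∀ l, algebraMap M (AlgebraicClosure M) (algebraMap ℚ M (a l)) =
      algebraMap K (AlgebraicClosure M) (γ l) := by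
    intro l
    rw [hγ, eq_ratCast, eq_ratCast, map_ratCast, map_ratCast]
  have hgood : GoodP K γ p := by
    refine ⟨hp, fun v hv => ⟨fun y hy => ?_, fun l => ?_⟩⟩
    · exact hL.ram (hpNi.trans (Finset.dvd_prod_of_mem N (mem_univ i))) v hv y hy
    · rw [hγ]
      exact abv_rat v hp hv (a l) (hL.good.nz l) (hL.unit l)
  -- the number field
  obtain ⟨f, hf⟩ : ∃ f : M →ₐ[K] AlgebraicClosure M, ∀ z, f z = algebraMap M (AlgebraicClosure M) z :=
    ⟨IsScalarTower.toAlgHom K M (AlgebraicClosure M), fun _ => rfl⟩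
  have hfinLv : FiniteDimensional K (Lv K (AlgebraicClosure M) γ n1 n1) := fin_lv γ hn1pos
  have hfinM : FiniteDimensional K M := Module.Finite.of_restrictScalars_finite ℚ K M
  have hfinR : FiniteDimensional K f.fieldRange := by
    have h := LinearMap.finiteDimensional_range f.toLinearMap
    exact h
  obtain ⟨M', hM'⟩ : ∃ M' : IntermediateField K (AlgebraicClosure M),
    M' = Lv K (AlgebraicClosure M) γ n1 n1 ⊔ f.fieldRange := ⟨_, rfl⟩
  have hfinM' : FiniteDimensional K M' := by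
    rw [hM']
    exact IntermediateField.finiteDimensional_sup _ _
  have hfinQ : FiniteDimensional ℚ M' := FiniteDimensional.trans ℚ K M'
  have hNF : NumberField M' := { to_charZero := inferInstance, to_finiteDimensional := hfinQ }
  have hfM' : ∀ z, f z ∈ M' := by
    intro z
    rw [hM']
    exact (le_sup_right : f.fieldRange ≤ _) ⟨z, rfl⟩
  let algM : Algebra M M' := (f.codRestrict M'.toSubalgebra hfM').toRingHom.toAlgebra
  have halgM' : ∀ z : M, ((algebraMap M M' z : M') : AlgebraicClosure M) = f z := fun z => rfl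
  obtain ⟨w', k', hk', hw'⟩ := Pool.Agent.H18.LG.pf_EXTP hRS M M' w
  have hpp : algebraMap M M' (p : M) = (p : M') := map_natCast _ p
  have hw'p : w'.1 (p : M') = w.1 (p : M) ^ k' := by rw [← hpp, hw']
  have hp0 : (p : M) ≠ 0 := by
    rw [Nat.cast_ne_zero]
    exact hp.ne_zero
  have hwp0 : 0 < w.1 (p : M) := w.1.pos hp0
  have hw'p1 : w'.1 (p : M') < 1 := by
    rw [hw'p]
    exact Real.rpow_lt_one hwp0.le hw hk'
  -- the image of the field
  have hmem : f x ∈ Lv K (AlgebraicClosure M) γ n1 n1 := by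
    have h1 : (IntermediateField.adjoin K (insert (θ i ^ (p ^ k)) {z | ∃ l, l ≠ i ∧ z = θ l})) ≤
        (Lv K (AlgebraicClosure M) γ n1 n1).comap f := by
      rw [IntermediateField.adjoin_le_iff]
      rintro z (hz | ⟨l, hl, hz⟩)
      · refine mem_lv γ hγ0 hn1pos hmn (f z) i ?_
        rw [hz, ← map_pow, ← pow_mul, ← hm', hL.pow, hf, hγM]
      · refine mem_lv γ hγ0 hn1pos (hNn l hl) (f z) l ?_
        rw [hz, ← map_pow, hL.pow, hf, hγM]
    exact h1 hx
  have hx'0 : algebraMap M M' x ≠ 0 := by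
    rw [Ne, FaithfulSMul.algebraMap_eq_zero_iff]
    exact hx0
  obtain ⟨n, hn⟩ := hUNK K (AlgebraicClosure M) r γ hγ0 p hgood n1 n1 hn1pos (dvd_refl _) hpn1 M'
    (by rw [hM']; exact le_sup_left) w' hw'p1 (algebraMap M M' x) hmem hx'0
  refine ⟨n, ?_⟩
  rw [hw', hw'p] at hn
  have h8 : (w.1 (p : M) ^ k') ^ n = (w.1 (p : M) ^ n) ^ k' := by
    rw [← Real.rpow_intCast, ← Real.rpow_intCast, ← Real.rpow_mul hwp0.le,
      ← Real.rpow_mul hwp0.le, mul_comm]
  rw [h8] at hn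
  exact (Real.rpow_left_inj (w.1.nonneg _) (zpow_nonneg (w.1.nonneg _) _) hk'.ne').1 hn

end Pool.Agent.H67.GG
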